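import Pool.Agent.TW4.Step

/-! Vertices whose neighbours, apart from one, form a small clique; degrees. -/

namespace Pool.Agent.TW4.Sm

open Pool.Agent.TW4

/-- the neighbours of v apart from one vertex form a clique with at most 3 vertices -/
def Bad {n : ℕ} (G : SimpleGraph (Fin n)) (v : Fin n) : Prop :=
  ∃ x : Fin n, G.IsClique {a | G.Adj v a ∧ a ≠ x} ∧ {a | G.Adj v a ∧ a ≠ x}.encard ≤ 3

theorem bad_iso {n : ℕ} {G H : SimpleGraph (Fin n)} (e : G ≃g H) {v : Fin n} (h : Bad G v) :
    Bad H (e v) := by
  obtain ⟨x, h1, h2⟩ := h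
  have himg : {a | H.Adj (e v) a ∧ a ≠ e x} = e '' {a | G.Adj v a ∧ a ≠ x} := by
    ext a
    constructor
    · rintro ⟨h3, h4⟩
      refine ⟨e.symm a, ⟨?_, ?_⟩, e.apply_symm_apply a⟩
      · rw [← e.map_rel_iff, e.apply_symm_apply]
        exact h3
      · intro h5
        exact h4 (by rw [← h5, e.apply_symm_apply])
    · rintro ⟨b, ⟨h3, h4⟩, rfl⟩
      exact ⟨e.map_rel_iff.2 h3, fun h5 => h4 (e.injective h5)⟩
  refine ⟨e x, ?_, ?_⟩
  · rw [himg]
    rintro _ ⟨a, ha, rfl⟩ _ ⟨b, hb, rfl⟩ hab
    exact e.map_rel_iff.2 (h1 ha hb (fun h => hab (by rw [h])))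
  · rw [himg, e.injective.encard_image]
    exact h2

/-- putting back a vertex whose neighbours lie in a small clique -/
theorem partial_addVertex {n : ℕ} {G G' : SimpleGraph (Fin (n + 1))} {v : Fin (n + 1)}
    (h0 : ∀ a b, a ≠ v → b ≠ v → G.Adj a b → G'.Adj a b) (K : Set (Fin (n + 1)))
    (hK : K.encard ≤ 4) (hcl : G'.IsClique K) (hN : ∀ a, G.Adj v a → a ∈ K)
    (hp : IsPartialKTree 4 (G'.comap v.succAbove)) : IsPartialKTree 4 G := by
  classical
  obtain ⟨t, T, f, hT, hf, hadj⟩ := hp
  set C : Finset (Fin t) := (Finset.univ.filter (fun i => v.succAbove i ∈ K)).image f with hC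
  have hCcard : C.card ≤ 4 := by
    have e1 : C.card ≤ (Finset.univ.filter (fun i => v.succAbove i ∈ K)).card :=
      Finset.card_image_le
    have e2 : (((Finset.univ.filter (fun i => v.succAbove i ∈ K)).card : ℕ) : ℕ∞) ≤ K.encard := by
      rw [← Set.encard_coe_eq_coe_finsetCard]
      refine Set.encard_le_encard_of_injOn (f := v.succAbove) ?_
        (Fin.succAbove_right_injective).injOn
      intro i hi
      simpa using hi
    have e3 := e2.trans hK
    have e4 : (Finset.univ.filter (fun i => v.succAbove i ∈ K)).card ≤ 4 := by exact_mod_cast e3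
    omega
  have hCcl : T.IsClique (C : Set (Fin t)) := by
    intro x hx y hy hxy
    simp only [hC, Finset.coe_image, Finset.coe_filter, Set.mem_image, Set.mem_ofPred_eq,
      Finset.mem_univ, true_and] at hx hy
    obtain ⟨i, hi, rfl⟩ := hx
    obtain ⟨j, hj, rfl⟩ := hy
    refine hadj i j ?_
    rw [SimpleGraph.comap_adj]
    refine hcl hi hj ?_
    intro h
    exact hxy (by rw [Fin.succAbove_right_injective h])
  obtain ⟨S, hCS, hS, hScl⟩ := ktree_ext hT C hCcard hCcl
  have hF1 : (Fin.insertNth (α := fun _ => Fin (t + 1)) v (Fin.last t)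
      (fun i => (f i).castSucc)) v = Fin.last t := Fin.insertNth_apply_same _ _ _
  have hF2 : ∀ i, (Fin.insertNth (α := fun _ => Fin (t + 1)) v (Fin.last t)
      (fun i => (f i).castSucc)) (v.succAbove i) = (f i).castSucc :=
    fun i => Fin.insertNth_apply_succAbove _ _ _ _
  have hcase : ∀ a : Fin (n + 1), a = v ∨ ∃ i, a = v.succAbove i := by
    intro a
    by_cases h : a = v
    · exact Or.inl h
    · obtain ⟨i, hi⟩ := Fin.exists_succAbove_eq h
      exact Or.inr ⟨i, hi.symm⟩
  refine ⟨t + 1, addV T S, Fin.insertNth (α := fun _ => Fin (t + 1)) v (Fin.last t)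
    (fun i => (f i).castSucc), addV_ktree hT hS hScl, ?_, ?_⟩
  · intro a b hab
    rcases hcase a with rfl | ⟨i, rfl⟩
    · rcases hcase b with rfl | ⟨j, rfl⟩
      · rfl
      · rw [hF1, hF2] at hab
        exact absurd hab (Fin.castSucc_lt_last _).ne'
    · rcases hcase b with rfl | ⟨j, rfl⟩
      · rw [hF1, hF2] at hab
        exact absurd hab (Fin.castSucc_lt_last _).ne
      · rw [hF2, hF2] at hab
        rw [hf (Fin.castSucc_injective _ hab)]
  · have key : ∀ i, G.Adj v (v.succAbove i) → f i ∈ S := by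
      intro i hi
      refine hCS ?_
      rw [hC, Finset.mem_image]
      exact ⟨i, by simpa using hN _ hi, rfl⟩
    intro a b hab
    rcases hcase a with rfl | ⟨i, rfl⟩
    · rcases hcase b with rfl | ⟨j, rfl⟩
      · exact absurd hab (G.loopless.irrefl _)
      · rw [hF1, hF2]
        exact ((addV_cl T S _).2 (key j hab)).symm
    · rcases hcase b with rfl | ⟨j, rfl⟩
      · rw [hF1, hF2]
        exact (addV_cl T S _).2 (key i hab.symm)
      · rw [hF2, hF2]
        refine (addV_cc T S _ _).2 (hadj i j ?_)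
        rw [SimpleGraph.comap_adj]
        exact h0 _ _ (Fin.succAbove_ne v i) (Fin.succAbove_ne v j) hab

theorem conn_single {V : Type*} {G : SimpleGraph V} {A : Set V} {a : V} (ha : a ∈ A)
    (h : ∀ b ∈ A, b = a) : (G.induce A).Connected := by
  have : Nonempty A := ⟨⟨a, ha⟩⟩
  refine SimpleGraph.Connected.mk ?_
  rintro ⟨x, hx⟩ ⟨y, hy⟩
  have : x = y := (h x hx).trans (h y hy).symm
  subst this
  exact SimpleGraph.Reachable.refl _

/-- deleting a vertex gives a minor -/
theorem minor_delVertex {n : ℕ} (G : SimpleGraph (Fin (n + 1))) (v : Fin (n + 1)) :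
    IsMinor (G.comap v.succAbove) G := by
  have hF2 : ∀ i, (Fin.insertNth (α := fun _ => Option (Fin n)) v none
      (fun i => some i)) (v.succAbove i) = some i :=
    fun i => Fin.insertNth_apply_succAbove _ _ _ _
  have hF1 : (Fin.insertNth (α := fun _ => Option (Fin n)) v none
      (fun i => some i)) v = none := Fin.insertNth_apply_same _ _ _
  refine ⟨Fin.insertNth (α := fun _ => Option (Fin n)) v none (fun i => some i), ?_, ?_⟩
  · intro i
    refine conn_single (a := v.succAbove i) (hF2 i) ?_
    intro b hb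
    have hb' : (Fin.insertNth (α := fun _ => Option (Fin n)) v none
      (fun i => some i)) b = some i := hb
    by_cases hbv : b = v
    · rw [hbv, hF1] at hb'
      exact absurd hb' (by simp)
    · obtain ⟨j, rfl⟩ := Fin.exists_succAbove_eq hbv
      rw [hF2] at hb'
      rw [Option.some.inj hb']
  · intro i j hij
    exact ⟨_, _, hF2 i, hF2 j, hij⟩

/-- contracting an edge gives a minor -/
theorem minor_conVertex {n : ℕ} (G : SimpleGraph (Fin (n + 1))) (v : Fin (n + 1)) (i0 : Fin n)
    (hadj : G.Adj v (v.succAbove i0)) :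
    IsMinor ((con G v (v.succAbove i0)).comap v.succAbove) G := by
  have hF2 : ∀ i, (Fin.insertNth (α := fun _ => Option (Fin n)) v (some i0)
      (fun i => some i)) (v.succAbove i) = some i :=
    fun i => Fin.insertNth_apply_succAbove _ _ _ _
  have hF1 : (Fin.insertNth (α := fun _ => Option (Fin n)) v (some i0)
      (fun i => some i)) v = some i0 := Fin.insertNth_apply_same _ _ _
  refine ⟨Fin.insertNth (α := fun _ => Option (Fin n)) v (some i0) (fun i => some i), ?_, ?_⟩
  · intro i
    by_cases hi : i = i0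
    · subst hi
      have : {a | (Fin.insertNth (α := fun _ => Option (Fin n)) v (some i)
          (fun i => some i)) a = some i} = {v, v.succAbove i} := by
        ext a
        simp only [Set.mem_ofPred_eq, Set.mem_insert_iff, Set.mem_singleton_iff]
        by_cases hav : a = v
        · subst hav
          rw [hF1]
          simp
        · obtain ⟨j, rfl⟩ := Fin.exists_succAbove_eq hav
          rw [hF2]
          constructor
          · intro h
            right
            rw [Option.some.inj h]
          · rintro (h | h)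
            · exact absurd h (Fin.succAbove_ne v j)
            · rw [Fin.succAbove_right_injective h]
      rw [this]
      exact SimpleGraph.induce_pair_connected_of_adj hadj
    · refine conn_single (a := v.succAbove i) (hF2 i) ?_
      intro b hb
      have hb' : (Fin.insertNth (α := fun _ => Option (Fin n)) v (some i0)
        (fun i => some i)) b = some i := hb
      by_cases hbv : b = v
      · rw [hbv, hF1] at hb'
        exact absurd (Option.some.inj hb').symm hi
      · obtain ⟨j, rfl⟩ := Fin.exists_succAbove_eq hbv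
        rw [hF2] at hb'
        rw [Option.some.inj hb']
  · intro i j hij
    rw [SimpleGraph.comap_adj] at hij
    obtain ⟨-, -, -, h⟩ := hij
    rcases h with h | ⟨h, h'⟩ | ⟨h, h'⟩
    · exact ⟨_, _, hF2 i, hF2 j, h⟩
    · rw [Fin.succAbove_right_injective h]
      exact ⟨_, _, hF1, hF2 j, h'⟩
    · rw [Fin.succAbove_right_injective h]
      exact ⟨_, _, hF2 i, hF1, h'⟩

theorem iso_card_ne {n m : ℕ} {G : SimpleGraph (Fin n)} {H : SimpleGraph (Fin m)} (h : n ≠ m) :
    IsEmpty (G ≃g H) := by
  refine ⟨fun e => h ?_⟩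
  have := Fintype.card_congr e.toEquiv
  simpa using this

/-- an obstruction has no bad vertex -/
theorem not_bad {n : ℕ} {G : SimpleGraph (Fin (n + 1))} (hG : IsObstruction 4 G)
    (v : Fin (n + 1)) : ¬ Bad G v := by
  rintro ⟨x, h1, h2⟩
  by_cases hvx : G.Adj v x
  · have hxv : x ≠ v := hvx.ne'
    obtain ⟨i0, rfl⟩ := Fin.exists_succAbove_eq hxv
    refine hG.1 (partial_addVertex (G' := con G v (v.succAbove i0)) (v := v) ?_
      (insert (v.succAbove i0) {a | G.Adj v a ∧ a ≠ v.succAbove i0}) ?_ ?_ ?_
      (hG.2 n _ (minor_conVertex G v i0 hvx) (iso_card_ne (by omega))))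
    · intro a b ha hb hab
      exact ⟨hab.ne, ha, hb, Or.inl hab⟩
    · refine (Set.encard_insert_le _ _).trans ?_
      have e : (4 : ℕ∞) = 3 + 1 := by norm_num
      rw [e]
      exact add_le_add h2 le_rfl
    · intro a ha b hb hab
      rw [Set.mem_insert_iff] at ha hb
      rcases ha with rfl | ha
      · rcases hb with rfl | hb
        · exact absurd rfl hab
        · exact ⟨hab, hxv, hb.1.ne', Or.inr (Or.inl ⟨rfl, hb.1⟩)⟩
      · rcases hb with rfl | hb
        · exact ⟨hab, ha.1.ne', hxv, Or.inr (Or.inr ⟨rfl, ha.1.symm⟩)⟩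
        · exact ⟨hab, ha.1.ne', hb.1.ne', Or.inl (h1 ha hb hab)⟩
    · intro a ha
      by_cases hax : a = v.succAbove i0
      · exact Or.inl hax
      · exact Or.inr ⟨ha, hax⟩
  · refine hG.1 (partial_addVertex (G' := G) (v := v) (fun a b _ _ h => h)
      {a | G.Adj v a ∧ a ≠ x} ?_ h1 ?_ (hG.2 n _ (minor_delVertex G v) (iso_card_ne (by omega))))
    · refine h2.trans ?_
      exact_mod_cast (by norm_num : 3 ≤ 4)
    · intro a ha
      refine ⟨ha, ?_⟩
      rintro rfl
      exact hvx ha

open Classical in
/-- the degree -/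
noncomputable def dg {n : ℕ} (G : SimpleGraph (Fin n)) (v : Fin n) : ℕ :=
  (Finset.univ.filter fun w => G.Adj v w).card

theorem dg_iso {n : ℕ} {G H : SimpleGraph (Fin n)} (e : G ≃g H) (v : Fin n) :
    dg H (e v) = dg G v := by
  classical
  unfold dg
  symm
  refine Finset.card_bij (fun a _ => e a) ?_ ?_ ?_
  · intro a ha
    simp only [Finset.mem_filter, Finset.mem_univ, true_and] at ha ⊢
    exact e.map_rel_iff.2 ha
  · intro a _ b _ h
    exact e.injective h
  · intro b hb
    simp only [Finset.mem_filter, Finset.mem_univ, true_and] at hb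
    refine ⟨e.symm b, ?_, e.apply_symm_apply b⟩
    simp only [Finset.mem_filter, Finset.mem_univ, true_and]
    rw [← e.map_rel_iff, e.apply_symm_apply]
    exact hb

theorem dg_encard {n : ℕ} (G : SimpleGraph (Fin n)) (v : Fin n) :
    {w | G.Adj v w}.encard = dg G v := by
  classical
  unfold dg
  rw [← Set.encard_coe_eq_coe_finsetCard]
  congr 1
  ext w
  simp

/-- a partial k-tree has a vertex of degree at most k -/
theorem exists_dg_le {n k : ℕ} {G : SimpleGraph (Fin (n + 1))} (hG : IsPartialKTree k G) :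
    ∃ v, dg G v ≤ k := by
  obtain ⟨p, hp, hw⟩ := width_of_partial hG
  obtain ⟨v, -, hv⟩ := Finset.exists_min_image Finset.univ p ⟨0, Finset.mem_univ _⟩
  refine ⟨v, ?_⟩
  have h1 : {w | G.Adj v w} ⊆ Qs G p v := by
    intro w hw
    refine ⟨lt_of_le_of_ne (hv w (Finset.mem_univ _)) ?_, v, Comp.refl, hw⟩
    intro h
    exact (show G.Adj v w from hw).ne (hp h)
  have h2 := (Set.encard_le_encard h1).trans (hw v)
  rw [dg_encard] at h2
  exact_mod_cast h2

/-- a vertex of degree at most 2 is bad -/
theorem bad_of_dg {n : ℕ} {G : SimpleGraph (Fin n)} {v : Fin n} (h : dg G v ≤ 2) : Bad G v := by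
  classical
  have hcard : {w | G.Adj v w}.encard ≤ 2 := by
    rw [dg_encard]
    exact_mod_cast h
  by_cases hne : ∃ x, G.Adj v x
  · obtain ⟨x, hx⟩ := hne
    have h1 : {a | G.Adj v a ∧ a ≠ x} = {w | G.Adj v w} \ {x} := by
      ext a
      simp
    have h2 : ({w | G.Adj v w} \ {x}).encard ≤ 1 := by
      have e1 := Set.encard_sdiff_singleton_add_one (s := {w | G.Adj v w}) (a := x) hx
      have e2 : ({w | G.Adj v w} \ {x}).encard + 1 ≤ 1 + 1 := by
        rw [e1]
        refine hcard.trans ?_
        norm_num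
      exact (ENat.add_le_add_iff_right ENat.one_ne_top).1 e2
    refine ⟨x, ?_, ?_⟩
    · rw [h1]
      intro a ha b hb hab
      exact absurd (Set.encard_le_one_iff.1 h2 a b ha hb) hab
    · rw [h1]
      exact h2.trans (by norm_num)
  · push Not at hne
    have h1 : {a | G.Adj v a ∧ a ≠ v} = ∅ := by
      ext a
      simp [hne a]
    refine ⟨v, ?_, ?_⟩
    · rw [h1]
      intro a ha
      exact absurd ha (Set.notMem_empty _)
    · rw [h1]
      simp

theorem minor_del {n : ℕ} (G : SimpleGraph (Fin n)) (u v : Fin n) : IsMinor (del G u v) G := by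
  refine ⟨fun x => some x, ?_, ?_⟩
  · intro w
    exact conn_single (a := w) rfl (fun b hb => Option.some.inj hb)
  · intro w w' h
    exact ⟨w, w', rfl, rfl, h.1⟩

theorem del_not_iso {n : ℕ} {G : SimpleGraph (Fin n)} {u v : Fin n} (h : G.Adj u v) :
    IsEmpty (del G u v ≃g G) := by
  classical
  refine ⟨fun e => ?_⟩
  have h1 : ∑ x, dg (del G u v) x < ∑ x, dg G x := by
    have hle : ∀ x, dg (del G u v) x ≤ dg G x := by
      intro x
      unfold dg
      apply Finset.card_le_card
      intro w hw
      simp only [Finset.mem_filter, Finset.mem_univ, true_and] at hw ⊢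
      exact hw.1
    refine Finset.sum_lt_sum (fun x _ => hle x) ⟨u, Finset.mem_univ _, ?_⟩
    unfold dg
    apply Finset.card_lt_card
    rw [Finset.ssubset_iff_of_subset]
    · refine ⟨v, by simpa using h, ?_⟩
      simp only [Finset.mem_filter, Finset.mem_univ, true_and]
      rintro ⟨-, h2, -⟩
      exact h2 ⟨rfl, rfl⟩
    · intro w hw
      simp only [Finset.mem_filter, Finset.mem_univ, true_and] at hw ⊢
      exact hw.1
  have h2 : ∑ x, dg (del G u v) x = ∑ x, dg G x := by
    refine Fintype.sum_equiv e.toEquiv _ _ ?_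
    intro x
    exact (dg_iso e x).symm
  omega

/-- an obstruction has a vertex of degree at most 5 -/
theorem exists_dg_le_five {n : ℕ} {G : SimpleGraph (Fin (n + 1))} (hG : IsObstruction 4 G) :
    ∃ v, dg G v ≤ 5 := by
  classical
  by_cases hne : ∃ u v, G.Adj u v
  · obtain ⟨u, v, huv⟩ := hne
    obtain ⟨w, hw⟩ := exists_dg_le (hG.2 _ _ (minor_del G u v) (del_not_iso huv))
    refine ⟨w, ?_⟩
    -- the degree drops by at most one
    have key : ∃ z, ∀ y, G.Adj w y → y ≠ z → (del G u v).Adj w y := by
      by_cases hwu : w = u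
      · refine ⟨v, fun y hy hyv => ⟨hy, fun h => hyv h.2, fun h => ?_⟩⟩
        exact huv.ne (hwu.symm.trans h.1)
      · refine ⟨u, fun y hy hyu => ⟨hy, fun h => hwu h.1, fun h => hyu h.2⟩⟩
    obtain ⟨z, hz⟩ := key
    have hsub : (Finset.univ.filter fun y => G.Adj w y) ⊆
        insert z (Finset.univ.filter fun y => (del G u v).Adj w y) := by
      intro y hy
      simp only [Finset.mem_filter, Finset.mem_univ, true_and, Finset.mem_insert] at hy ⊢
      by_cases hyz : y = z
      · exact Or.inl hyz
      · exact Or.inr (hz y hy hyz)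
    have h3 := (Finset.card_le_card hsub).trans (Finset.card_insert_le _ _)
    unfold dg at hw ⊢
    omega
  · push Not at hne
    refine ⟨0, ?_⟩
    unfold dg
    rw [Finset.filter_false_of_mem (fun w _ => hne 0 w)]
    simp

end Pool.Agent.TW4.Sm
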