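import Pool.Agent.TW4.Sm.Defs
import Pool.Agent.TW4.Cert

/-! Basic facts on the checkers for small orders. -/

namespace Pool.Agent.TW4.Sm

open Pool.Agent.TW4

theorem tb_eq (a i : ℕ) : tb a i = a.testBit i := by
  show Nat.beq ((a >>> i) &&& 1) 1 = a.testBit i
  rw [Nat.and_one_is_mod, Nat.shiftRight_eq_div_pow, Nat.testBit_eq_decide_div_mod_eq]
  cases h : Nat.beq (a / 2 ^ i % 2) 1 with
  | true =>
    have := Nat.eq_of_beq_eq_true h
    simp [this]
  | false =>
    have := Nat.ne_of_beq_eq_false h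
    simp [this]

theorem nib_lt (p i : ℕ) : nib p i < 16 := by
  show (p >>> (4 * i)) &&& 15 < 16
  exact lt_of_le_of_lt Nat.and_le_right (by norm_num)

/-- the matrix of a graph -/
def Mat (n R : ℕ) (G : SimpleGraph (Fin n)) : Prop :=
  ∀ x y : Fin n, G.Adj x y ↔ R.testBit (16 * x + y) = true

/-- R is the matrix of a graph isomorphic to H -/
def Rep (n R : ℕ) (H : SimpleGraph (Fin n)) : Prop :=
  ∃ G : SimpleGraph (Fin n), Mat n R G ∧ Nonempty (H ≃g G)

/-- all entries are in the range -/
def Rng (n R : ℕ) : Prop := ∀ j, R.testBit j = true → j / 16 < n ∧ j % 16 < n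

theorem m16_bit (j : ℕ) : m16.testBit j = true ↔ j % 16 = 0 ∧ j < 240 := by
  have h1 : ∀ j : Fin 240, (m16.testBit j = true ↔ (j : ℕ) % 16 = 0) := by decide +kernel
  by_cases hj : j < 240
  · have := h1 ⟨j, hj⟩
    simp only at this
    rw [this]
    exact ⟨fun h => ⟨h, hj⟩, fun h => h.1⟩
  · constructor
    · intro h
      exfalso
      have h2 : m16 < 2 ^ j := by
        have e1 : m16 < 2 ^ 240 := by decide +kernel
        exact lt_of_lt_of_le e1 (Nat.pow_le_pow_right (by norm_num) (not_lt.1 hj))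
      rw [Nat.testBit_lt_two_pow h2] at h
      exact absurd h (by simp)
    · exact fun h => absurd h.2 hj

theorem spread_bit {m : ℕ} (hm : m < 1024) {i : ℕ} (hi : i < 15) :
    (spread m).testBit (16 * i) = m.testBit i := by
  have h1 : ∀ m : Fin 1024, ∀ i : Fin 15, (spread m).testBit (16 * i) = (m : ℕ).testBit i := by
    decide +kernel
  exact h1 ⟨m, hm⟩ ⟨i, hi⟩

theorem spread_bit' {m j : ℕ} (h : (spread m).testBit j = true) : j % 16 = 0 ∧ j < 240 := by
  have h1 : (spread m) = (m * m15) &&& m16 := rfl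
  rw [h1, Nat.testBit_and, Bool.and_eq_true] at h
  exact (m16_bit j).1 h.2

theorem ext_def (R n N : ℕ) : ext R n N = (R ||| (N <<< (16 * n))) ||| (spread N <<< n) := rfl

theorem ext_bit {R n N : ℕ} (hn : n < 10) (hR : Rng n R) (hN : N < 2 ^ n) (a b : ℕ)
    (ha : a ≤ n) (hb : b ≤ n) :
    (ext R n N).testBit (16 * a + b) = true ↔
      (a < n ∧ b < n ∧ R.testBit (16 * a + b) = true) ∨ (a = n ∧ b < n ∧ N.testBit b = true) ∨
      (a < n ∧ b = n ∧ N.testBit a = true) := by
  have hNbit : ∀ j, N.testBit j = true → j < n := by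
    intro j hj
    by_contra h
    rw [Nat.testBit_lt_two_pow (lt_of_lt_of_le hN (Nat.pow_le_pow_right (by norm_num)
      (not_lt.1 h)))] at hj
    exact absurd hj (by simp)
  have hN' : N < 1024 := lt_of_lt_of_le hN (Nat.pow_le_pow_right (by norm_num) hn.le)
  rw [ext_def, Nat.testBit_or, Nat.testBit_or, Bool.or_eq_true, Bool.or_eq_true]
  have e1 : R.testBit (16 * a + b) = true ↔
      (a < n ∧ b < n ∧ R.testBit (16 * a + b) = true) := by
    constructor
    · intro h
      have := hR _ h
      refine ⟨by omega, by omega, h⟩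
    · exact fun h => h.2.2
  have e2 : (N <<< (16 * n)).testBit (16 * a + b) = true ↔
      (a = n ∧ b < n ∧ N.testBit b = true) := by
    rw [Nat.testBit_shiftLeft, Bool.and_eq_true]
    constructor
    · rintro ⟨h1, h2⟩
      have h3 : 16 * a + b ≥ 16 * n := by simpa using h1
      have h4 : a = n := by omega
      subst h4
      rw [Nat.add_sub_cancel_left] at h2
      exact ⟨rfl, hNbit _ h2, h2⟩
    · rintro ⟨rfl, h1, h2⟩
      rw [Nat.add_sub_cancel_left]
      exact ⟨by simp, h2⟩
  have e3 : (spread N <<< n).testBit (16 * a + b) = true ↔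
      (a < n ∧ b = n ∧ N.testBit a = true) := by
    rw [Nat.testBit_shiftLeft, Bool.and_eq_true]
    constructor
    · rintro ⟨h1, h2⟩
      have h3 : 16 * a + b ≥ n := by simpa using h1
      have h4 := spread_bit' h2
      have h5 : b = n := by omega
      subst h5
      rw [Nat.add_sub_cancel, spread_bit hN' (by omega)] at h2
      exact ⟨hNbit _ h2, rfl, h2⟩
    · rintro ⟨h1, rfl, h2⟩
      rw [Nat.add_sub_cancel, spread_bit hN' (by omega)]
      exact ⟨by simp, h2⟩
  rw [← e1, ← e2, ← e3, or_assoc]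

/-! permutations -/

theorem colP_bit (R p : ℕ) : ∀ (m k b : ℕ), b < 16 → ((colP R p m).testBit (16 * k + b) = true ↔
    k < 15 ∧ ∃ j, j < m ∧ nib p j = b ∧ R.testBit (16 * k + j) = true) := by
  intro m
  induction m with
  | zero =>
    intro k b hb
    have : colP R p 0 = 0 := rfl
    simp [this]
  | succ m ih =>
    intro k b hb
    have h1 : colP R p (m + 1) = (colP R p m) ||| (((R >>> m) &&& m16) <<< nib p m) := rfl
    rw [h1, Nat.testBit_or, Bool.or_eq_true, ih k b hb]
    have h2 : (((R >>> m) &&& m16) <<< nib p m).testBit (16 * k + b) = true ↔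
        k < 15 ∧ nib p m = b ∧ R.testBit (16 * k + m) = true := by
      rw [Nat.testBit_shiftLeft, Bool.and_eq_true, Nat.testBit_and, Bool.and_eq_true,
        Nat.testBit_shiftRight, m16_bit]
      have hn := nib_lt p m
      constructor
      · rintro ⟨h3, h4, h5, h6⟩
        have h7 : 16 * k + b ≥ nib p m := by simpa using h3
        have h8 : nib p m = b := by omega
        rw [h8, Nat.add_sub_cancel] at h4 h6
        refine ⟨by omega, h8, ?_⟩
        rw [add_comm]
        exact h4
      · rintro ⟨h3, h4, h5⟩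
        rw [h4, Nat.add_sub_cancel]
        refine ⟨by simp, ?_, by omega, by omega⟩
        rw [add_comm]
        exact h5
    rw [h2]
    constructor
    · rintro (⟨h3, j, hj, h4⟩ | ⟨h3, h4, h5⟩)
      · exact ⟨h3, j, by omega, h4⟩
      · exact ⟨h3, m, by omega, h4, h5⟩
    · rintro ⟨h3, j, hj, h4, h5⟩
      rcases Nat.lt_succ_iff_lt_or_eq.1 hj with h | h
      · exact Or.inl ⟨h3, j, h, h4, h5⟩
      · subst h
        exact Or.inr ⟨h3, h4, h5⟩

theorem mask16 (x j : ℕ) : (x &&& 65535).testBit j = true ↔ j < 16 ∧ x.testBit j = true := by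
  have h : (65535 : ℕ) = 2 ^ 16 - 1 := by norm_num
  rw [Nat.testBit_and, Bool.and_eq_true, h, Nat.testBit_two_pow_sub_one]
  constructor
  · rintro ⟨h1, h2⟩
    exact ⟨by simpa using h2, h1⟩
  · rintro ⟨h1, h2⟩
    exact ⟨h2, by simpa using h1⟩

theorem rowP_bit (C p : ℕ) : ∀ (m a b : ℕ), b < 16 → ((rowP C p m).testBit (16 * a + b) = true ↔
    ∃ i, i < m ∧ nib p i = a ∧ C.testBit (16 * i + b) = true) := by
  intro m
  induction m with
  | zero =>
    intro a b hb
    have : rowP C p 0 = 0 := rfl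
    simp [this]
  | succ m ih =>
    intro a b hb
    have h1 : rowP C p (m + 1) = (rowP C p m) |||
        (((C >>> (16 * m)) &&& 65535) <<< (16 * nib p m)) := rfl
    rw [h1, Nat.testBit_or, Bool.or_eq_true, ih a b hb]
    have h2 : (((C >>> (16 * m)) &&& 65535) <<< (16 * nib p m)).testBit (16 * a + b) = true ↔
        nib p m = a ∧ C.testBit (16 * m + b) = true := by
      rw [Nat.testBit_shiftLeft, Bool.and_eq_true, mask16, Nat.testBit_shiftRight]
      constructor
      · rintro ⟨h3, h4, h5⟩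
        have h6 : 16 * a + b ≥ 16 * nib p m := by simpa using h3
        have h7 : nib p m = a := by omega
        rw [h7, Nat.add_sub_cancel_left] at h5
        exact ⟨h7, h5⟩
      · rintro ⟨h3, h4⟩
        rw [h3, Nat.add_sub_cancel_left]
        exact ⟨by simp, hb, h4⟩
    rw [h2]
    constructor
    · rintro (⟨i, hi, h3, h4⟩ | ⟨h3, h4⟩)
      · exact ⟨i, by omega, h3, h4⟩
      · exact ⟨m, by omega, h3, h4⟩
    · rintro ⟨i, hi, h3, h4⟩
      rcases Nat.lt_succ_iff_lt_or_eq.1 hi with h | h
      · exact Or.inl ⟨i, h, h3, h4⟩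
      · subst h
        exact Or.inr ⟨h3, h4⟩

theorem one_shl (i : ℕ) : Nat.shiftLeft 1 i = 2 ^ i := by
  show 1 <<< i = 2 ^ i
  rw [Nat.shiftLeft_eq, one_mul]

theorem imgP_bit (p : ℕ) : ∀ (m a : ℕ), (imgP p m).testBit a = true ↔
    ∃ i, i < m ∧ nib p i = a := by
  intro m
  induction m with
  | zero =>
    intro a
    have : imgP p 0 = 0 := rfl
    simp [this]
  | succ m ih =>
    intro a
    have h1 : imgP p (m + 1) = (imgP p m) ||| (Nat.shiftLeft 1 (nib p m)) := rfl
    rw [h1, one_shl, Nat.testBit_or, Bool.or_eq_true, ih a, Nat.testBit_two_pow]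
    constructor
    · rintro (⟨i, hi, h3⟩ | h3)
      · exact ⟨i, by omega, h3⟩
      · exact ⟨m, by omega, by simpa using h3⟩
    · rintro ⟨i, hi, h3⟩
      rcases Nat.lt_succ_iff_lt_or_eq.1 hi with h | h
      · exact Or.inl ⟨i, h, h3⟩
      · subst h
        exact Or.inr (by simpa using h3)

/-- R permuted by p is S -/
theorem perm_bit {m R p S : ℕ} (hm : m ≤ 15) (hR : Rng m R) (hinj : ∀ i j, i < m → j < m →
    nib p i = nib p j → i = j) (hS : rowP (colP R p m) p m = S) {i j : ℕ} (hi : i < m)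
    (hj : j < m) : S.testBit (16 * nib p i + nib p j) = true ↔ R.testBit (16 * i + j) = true := by
  rw [← hS, rowP_bit _ _ _ _ _ (nib_lt p j)]
  constructor
  · rintro ⟨i', hi', h1, h2⟩
    rw [hinj i' i hi' hi h1] at h2
    rw [colP_bit _ _ _ _ _ (nib_lt p j)] at h2
    obtain ⟨_, j', hj', h3, h4⟩ := h2
    rw [hinj j' j hj' hj h3] at h4
    exact h4
  · intro h
    refine ⟨i, hi, rfl, ?_⟩
    rw [colP_bit _ _ _ _ _ (nib_lt p j)]
    exact ⟨by omega, j, hj, rfl, h⟩

theorem isoChk_spec {m R S p : ℕ} (hm : m ≤ 15) (hR : Rng m R) {G : SimpleGraph (Fin m)}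
    (hG : Mat m R G) (h : isoChk m R S p = true) : Rep m S G := by
  have h' : Nat.beq (rowP (colP R p m) p m) S = true ∧
      Nat.beq (imgP p m) (Nat.sub (Nat.shiftLeft 1 m) 1) = true := by
    unfold isoChk at h
    exact Bool.and_eq_true_iff.1 h
  have h1 := Nat.eq_of_beq_eq_true h'.1
  have h2 := Nat.eq_of_beq_eq_true h'.2
  rw [one_shl] at h2
  have h2' : imgP p m = 2 ^ m - 1 := h2
  have hlt : ∀ i, i < m → nib p i < m := by
    intro i hi
    have : (imgP p m).testBit (nib p i) = true := (imgP_bit p m _).2 ⟨i, hi, rfl⟩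
    rw [h2', Nat.testBit_two_pow_sub_one] at this
    simpa using this
  have hsurj : ∀ a, a < m → ∃ i, i < m ∧ nib p i = a := by
    intro a ha
    have : (imgP p m).testBit a = true := by
      rw [h2', Nat.testBit_two_pow_sub_one]
      simpa using ha
    exact (imgP_bit p m _).1 this
  let f : Fin m → Fin m := fun i => ⟨nib p i, hlt i i.2⟩
  have hfs : Function.Surjective f := by
    intro a
    obtain ⟨i, hi, h3⟩ := hsurj a a.2
    exact ⟨⟨i, hi⟩, Fin.ext h3⟩
  have hfb : Function.Bijective f := Finite.surjective_iff_bijective.1 hfs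
  have hinj : ∀ i j, i < m → j < m → nib p i = nib p j → i = j := by
    intro i j hi hj hij
    have := hfb.1 (a₁ := ⟨i, hi⟩) (a₂ := ⟨j, hj⟩) (Fin.ext hij)
    simpa using this
  let e : Fin m ≃ Fin m := Equiv.ofBijective f hfb
  refine ⟨G.comap e.symm, ?_, ⟨⟨e, ?_⟩⟩⟩
  · intro x y
    rw [SimpleGraph.comap_adj, hG]
    have hx : nib p (e.symm x) = x := by
      have : (e (e.symm x) : ℕ) = x := by rw [e.apply_symm_apply]
      exact this
    have hy : nib p (e.symm y) = y := by
      have : (e (e.symm y) : ℕ) = y := by rw [e.apply_symm_apply]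
      exact this
    rw [← perm_bit hm hR hinj h1 (e.symm x).2 (e.symm y).2, hx, hy]
  · intro a b
    rw [SimpleGraph.comap_adj, e.symm_apply_apply, e.symm_apply_apply]

theorem pop_spec {m : ℕ} (hm : m < 1024) :
    pop m = ((Finset.range 10).filter fun i => m.testBit i = true).card := by
  have h : ∀ m : Fin 1024, pop m =
      ((Finset.range 10).filter fun i => (m : ℕ).testBit i = true).card := by
    decide +kernel
  exact h ⟨m, hm⟩

end Pool.Agent.TW4.Sm
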