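import Pool.Agent.TW4.Sm.Minor
import Pool.Agent.TW4.Sm.AS

/-! Adding a vertex; degrees and bad vertices of a matrix. -/

namespace Pool.Agent.TW4.Sm

open Pool.Agent.TW4

theorem pop_card {n m : ℕ} (hn : n ≤ 10) (hm : ∀ j, m.testBit j = true → j < n) :
    pop m = (Finset.univ.filter fun i : Fin n => m.testBit i = true).card := by
  have h10 : m < 2 ^ 10 := by
    apply Nat.lt_pow_two_of_testBit
    intro i hi
    by_contra hcon
    have := hm i (by simpa using hcon)
    omega
  rw [pop_spec h10]
  symm
  refine Finset.card_bij (fun a _ => (a : ℕ)) ?_ ?_ ?_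
  · intro a ha
    simp only [Finset.mem_filter, Finset.mem_univ, true_and, Finset.mem_range] at ha ⊢
    exact ⟨lt_of_lt_of_le a.2 hn, ha⟩
  · intro a _ b _ h
    exact Fin.ext h
  · intro b hb
    simp only [Finset.mem_filter, Finset.mem_range] at hb
    exact ⟨⟨b, hm b hb.2⟩, by simpa using hb.2, rfl⟩

theorem row_bit {R v j : ℕ} : (row R v).testBit j = true ↔
    j < 16 ∧ R.testBit (16 * v + j) = true := by
  have h : row R v = (R >>> (16 * v)) &&& 65535 := rfl
  rw [h, mask16, Nat.testBit_shiftRight]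

theorem deg_spec {n R : ℕ} (hn : n ≤ 10) (hR : Rng n R) {H : SimpleGraph (Fin n)}
    (hH : Mat n R H) (w : Fin n) : deg R w = dg H w := by
  classical
  have h1 : ∀ j, (row R w).testBit j = true → j < n := by
    intro j hj
    rw [row_bit] at hj
    have := hR _ hj.2
    omega
  show pop (row R w) = dg H w
  rw [pop_card hn h1]
  unfold dg
  congr 1
  ext a
  simp only [Finset.mem_filter, Finset.mem_univ, true_and]
  rw [row_bit, hH]
  have := a.2
  exact ⟨fun h => h.2, fun h => ⟨by omega, h⟩⟩

theorem Mat.unique {n R : ℕ} {G H : SimpleGraph (Fin n)} (hG : Mat n R G) (hH : Mat n R H) :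
    G = H := by
  ext x y
  rw [hG, hH]

/-- a neighbourhood as a number -/
theorem exists_mask {n : ℕ} (P : Fin n → Prop) : ∃ N : ℕ, N < 2 ^ n ∧
    ∀ i : Fin n, N.testBit i = true ↔ P i := by
  classical
  refine ⟨Nat.ofBits (fun i => decide (P i)), Nat.ofBits_lt_two_pow _, ?_⟩
  intro i
  rw [Nat.testBit_ofBits_lt _ _ i.2]
  simp

theorem ext_rep {n R : ℕ} (hn : n < 10) (hR : Rng n R) {G : SimpleGraph (Fin (n + 1))}
    {v : Fin (n + 1)} (h : Rep n R (G.comap v.succAbove)) :
    ∃ (N : ℕ) (G' : SimpleGraph (Fin (n + 1))) (H' : SimpleGraph (Fin n)) (e : G ≃g G'),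
      N < 2 ^ n ∧ Mat (n + 1) (ext R n N) G' ∧ Mat n R H' ∧ e v = Fin.last n ∧
      Nonempty (G.comap v.succAbove ≃g H') ∧
      (∀ i j : Fin n, G'.Adj i.castSucc j.castSucc ↔ H'.Adj i j) ∧
      (∀ i : Fin n, G'.Adj i.castSucc (Fin.last n) ↔ N.testBit i = true) := by
  classical
  obtain ⟨H', hH', ⟨e'⟩⟩ := h
  let E : Fin (n + 1) ≃ Fin (n + 1) :=
    (finSuccEquiv' v).trans ((Equiv.optionCongr e'.toEquiv).trans finSuccEquivLast.symm)
  have hE1 : E v = Fin.last n := by
    simp [E]
  have hE2 : ∀ i, E (v.succAbove i) = (e' i).castSucc := by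
    intro i
    simp [E]
  have hE1' : E.symm (Fin.last n) = v := by
    rw [← hE1, Equiv.symm_apply_apply]
  have hE2' : ∀ i, E.symm (Fin.castSucc i) = v.succAbove (e'.symm i) := by
    intro i
    have := hE2 (e'.symm i)
    rw [e'.apply_symm_apply] at this
    rw [← this, Equiv.symm_apply_apply]
  obtain ⟨N, hN, hNb⟩ := exists_mask (fun i : Fin n => G.Adj (v.succAbove (e'.symm i)) v)
  have hcc : ∀ i j : Fin n, (G.comap E.symm).Adj i.castSucc j.castSucc ↔ H'.Adj i j := by
    intro i j
    rw [SimpleGraph.comap_adj, hE2', hE2', ← SimpleGraph.comap_adj (f := v.succAbove) (G := G)]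
    exact e'.symm.map_rel_iff
  have hcl : ∀ i : Fin n, (G.comap E.symm).Adj i.castSucc (Fin.last n) ↔
      N.testBit i = true := by
    intro i
    rw [SimpleGraph.comap_adj, hE2', hE1', hNb]
  refine ⟨N, G.comap E.symm, H', ⟨E, ?_⟩, hN, ?_, hH', hE1, ⟨e'⟩, hcc, hcl⟩
  · intro a b
    rw [SimpleGraph.comap_adj, E.symm_apply_apply, E.symm_apply_apply]
  · intro x y
    rw [ext_bit hn hR hN _ _ (Nat.lt_succ_iff.1 x.2) (Nat.lt_succ_iff.1 y.2)]
    rcases Fin.eq_castSucc_or_eq_last x with ⟨i, rfl⟩ | rfl
    · have hi := i.2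
      rcases Fin.eq_castSucc_or_eq_last y with ⟨j, rfl⟩ | rfl
      · have hj := j.2
        rw [hcc, hH']
        simp only [Fin.val_castSucc]
        constructor
        · intro h
          exact Or.inl ⟨hi, hj, h⟩
        · rintro (h | h | h)
          · exact h.2.2
          · omega
          · omega
      · rw [hcl]
        simp only [Fin.val_castSucc, Fin.val_last]
        constructor
        · intro h
          exact Or.inr (Or.inr ⟨hi, trivial, h⟩)
        · rintro (h | h | h)
          · omega
          · omega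
          · exact h.2.2
    · rcases Fin.eq_castSucc_or_eq_last y with ⟨j, rfl⟩ | rfl
      · have hj := j.2
        rw [SimpleGraph.adj_comm, hcl]
        simp only [Fin.val_castSucc, Fin.val_last]
        constructor
        · intro h
          exact Or.inr (Or.inl ⟨trivial, hj, h⟩)
        · rintro (h | h | h)
          · omega
          · exact h.2.2
          · omega
      · simp only [Fin.val_last]
        constructor
        · intro h
          exact absurd h (SimpleGraph.irrefl _)
        · rintro (h | h | h)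
          · omega
          · omega
          · omega

/-- the degree of an old vertex -/
theorem dg_castSucc {n N : ℕ} {G : SimpleGraph (Fin (n + 1))} {H : SimpleGraph (Fin n)}
    (hcc : ∀ i j : Fin n, G.Adj i.castSucc j.castSucc ↔ H.Adj i j)
    (hcl : ∀ i : Fin n, G.Adj i.castSucc (Fin.last n) ↔ N.testBit i = true) (w : Fin n) :
    dg G w.castSucc = dg H w + if N.testBit w = true then 1 else 0 := by
  classical
  unfold dg
  have h1 : (Finset.univ.filter fun a => G.Adj w.castSucc a) =
      ((Finset.univ.filter fun a => H.Adj w a).map Fin.castSuccEmb) ∪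
        (if N.testBit w = true then {Fin.last n} else ∅) := by
    ext a
    simp only [Finset.mem_filter, Finset.mem_univ, true_and, Finset.mem_union, Finset.mem_map]
    rcases Fin.eq_castSucc_or_eq_last a with ⟨i, rfl⟩ | rfl
    · rw [hcc]
      constructor
      · intro h
        exact Or.inl ⟨i, h, rfl⟩
      · rintro (⟨j, h, h'⟩ | h)
        · have : j = i := Fin.castSucc_injective _ h'
          rw [← this]
          exact h
        · exfalso
          by_cases hN : N.testBit w = true
          · simp only [hN, if_true, Finset.mem_singleton] at h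
            exact (Fin.castSucc_lt_last i).ne h
          · simp [hN] at h
    · rw [hcl]
      constructor
      · intro h
        right
        simp [h]
      · rintro (⟨j, h, h'⟩ | h)
        · exact absurd h' (Fin.castSucc_lt_last j).ne
        · by_contra hN
          simp [hN] at h
  rw [h1, Finset.card_union_of_disjoint, Finset.card_map]
  · congr 1
    by_cases hN : N.testBit w = true
    · simp [hN]
    · simp [hN]
  · rw [Finset.disjoint_left]
    intro a ha hb
    rw [Finset.mem_map] at ha
    obtain ⟨j, -, rfl⟩ := ha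
    by_cases hN : N.testBit w = true
    · simp only [hN, if_true, Finset.mem_singleton] at hb
      exact (Fin.castSucc_lt_last j).ne hb
    · simp [hN] at hb

theorem bit_lt {n N j : ℕ} (hN : N < 2 ^ n) (h : N.testBit j = true) : j < n := by
  by_contra hcon
  rw [Nat.testBit_lt_two_pow (lt_of_lt_of_le hN
    (Nat.pow_le_pow_right (by norm_num) (not_lt.1 hcon)))] at h
  exact absurd h (by simp)

/-- the degree of the new vertex -/
theorem dg_last {n N : ℕ} (hn : n ≤ 10) (hN : N < 2 ^ n) {G : SimpleGraph (Fin (n + 1))}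
    (hcl : ∀ i : Fin n, G.Adj i.castSucc (Fin.last n) ↔ N.testBit i = true) :
    dg G (Fin.last n) = pop N := by
  classical
  rw [pop_card hn (fun j hj => bit_lt hN hj)]
  unfold dg
  symm
  refine Finset.card_bij (fun a _ => a.castSucc) ?_ ?_ ?_
  · intro a ha
    simp only [Finset.mem_filter, Finset.mem_univ, true_and] at ha ⊢
    exact ((hcl a).2 ha).symm
  · intro a _ b _ h
    exact Fin.castSucc_injective _ h
  · intro b hb
    simp only [Finset.mem_filter, Finset.mem_univ, true_and] at hb
    rcases Fin.eq_castSucc_or_eq_last b with ⟨i, rfl⟩ | rfl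
    · refine ⟨i, ?_, rfl⟩
      simp only [Finset.mem_filter, Finset.mem_univ, true_and]
      exact (hcl i).1 hb.symm
    · exact absurd hb (SimpleGraph.irrefl _)

/-- a bad vertex not adjacent to the new vertex stays bad -/
theorem bad_castSucc {n N : ℕ} {G : SimpleGraph (Fin (n + 1))} {H : SimpleGraph (Fin n)}
    (hcc : ∀ i j : Fin n, G.Adj i.castSucc j.castSucc ↔ H.Adj i j)
    (hcl : ∀ i : Fin n, G.Adj i.castSucc (Fin.last n) ↔ N.testBit i = true) {w : Fin n}
    (hb : Bad H w) (hw : ¬ N.testBit w = true) : Bad G w.castSucc := by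
  obtain ⟨x, h1, h2⟩ := hb
  have himg : {a | G.Adj w.castSucc a ∧ a ≠ x.castSucc} =
      Fin.castSucc '' {a | H.Adj w a ∧ a ≠ x} := by
    ext a
    rcases Fin.eq_castSucc_or_eq_last a with ⟨i, rfl⟩ | rfl
    · simp only [Set.mem_ofPred_eq, Set.mem_image]
      rw [hcc]
      constructor
      · rintro ⟨h3, h4⟩
        exact ⟨i, ⟨h3, fun h => h4 (by rw [h])⟩, rfl⟩
      · rintro ⟨j, ⟨h3, h4⟩, h5⟩
        have : j = i := Fin.castSucc_injective _ h5
        subst this
        exact ⟨h3, fun h => h4 (Fin.castSucc_injective _ h)⟩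
    · simp only [Set.mem_ofPred_eq, Set.mem_image]
      rw [hcl]
      constructor
      · rintro ⟨h3, -⟩
        exact absurd h3 hw
      · rintro ⟨j, -, h5⟩
        exact absurd h5 (Fin.castSucc_lt_last j).ne
  refine ⟨x.castSucc, ?_, ?_⟩
  · rw [himg]
    rintro _ ⟨a, ha, rfl⟩ _ ⟨b, hb, rfl⟩ hab
    exact (hcc a b).2 (h1 ha hb (fun h => hab (by rw [h])))
  · rw [himg, (Fin.castSucc_injective n).encard_image]
    exact h2

theorem cliq_spec {R S : ℕ} : ∀ (k M : ℕ), cliq R S k M = true →
    {j : ℕ | M.testBit j = true}.encard ≤ k ∧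
    ∀ a, M.testBit a = true → ∀ b, S.testBit b = true → a = b ∨ R.testBit (16 * a + b) = true := by
  intro k
  induction k with
  | zero =>
    intro M h
    have h0 : M = 0 := Nat.eq_of_beq_eq_true h
    subst h0
    simp
  | succ k ih =>
    intro M h
    have h' : or (Nat.beq M 0)
      (and (Nat.beq (Nat.land (Nat.lor (Nat.shiftRight R (Nat.mul 16 (Nat.log2 M)))
          (Nat.shiftLeft 1 (Nat.log2 M))) S) S)
        (cliq R S k (Nat.xor M (Nat.shiftLeft 1 (Nat.log2 M))))) = true := h
    cases hM : Nat.beq M 0 with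
    | true =>
      have h0 : M = 0 := Nat.eq_of_beq_eq_true hM
      subst h0
      simp
    | false =>
      rw [hM] at h'
      have h2 : and (Nat.beq (Nat.land (Nat.lor (Nat.shiftRight R (Nat.mul 16 (Nat.log2 M)))
          (Nat.shiftLeft 1 (Nat.log2 M))) S) S)
        (cliq R S k (Nat.xor M (Nat.shiftLeft 1 (Nat.log2 M)))) = true := h'
      obtain ⟨h3, h4⟩ := Bool.and_eq_true_iff.1 h2
      have h5 := Nat.eq_of_beq_eq_true h3
      obtain ⟨h6, h7⟩ := ih _ h4
      rw [one_shl] at h5 h6 h7
      have h5' : ((R >>> (16 * M.log2)) ||| 2 ^ M.log2) &&& S = S := h5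
      refine ⟨?_, ?_⟩
      · have hsub : {j : ℕ | M.testBit j = true} ⊆
            insert M.log2 {j : ℕ | (M ^^^ 2 ^ M.log2).testBit j = true} := by
          intro w hw
          by_cases hwh : w = M.log2
          · exact Set.mem_insert_iff.2 (Or.inl hwh)
          · exact Set.mem_insert_iff.2 (Or.inr ((tb_clear _ _ _).2 (Or.inl ⟨hwh, hw⟩)))
        refine (Set.encard_le_encard hsub).trans ((Set.encard_insert_le _ _).trans ?_)
        rw [Nat.cast_succ]
        exact add_le_add h6 le_rfl
      · intro a ha b hb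
        by_cases hah : a = M.log2
        · rw [← h5', Nat.testBit_and, Bool.and_eq_true, Nat.testBit_or, Bool.or_eq_true,
            Nat.testBit_shiftRight, Nat.testBit_two_pow] at hb
          rcases hb.1 with h8 | h8
          · right
            rw [hah]
            exact h8
          · left
            rw [hah]
            simpa using h8
        · exact h7 a ((tb_clear _ _ _).2 (Or.inl ⟨hah, ha⟩)) b hb

theorem rowx_bit {R v x j : ℕ} : (rowx R v x).testBit j = true ↔
    j ≠ x ∧ j < 16 ∧ R.testBit (16 * v + j) = true := by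
  have h : rowx R v x = ((row R v) ||| (Nat.shiftLeft 1 x)) ^^^ (Nat.shiftLeft 1 x) := rfl
  rw [h, one_shl, tb_clear, Nat.testBit_or, Bool.or_eq_true, row_bit, Nat.testBit_two_pow]
  constructor
  · rintro (⟨h1, h2 | h2⟩ | ⟨h1, h2⟩)
    · exact ⟨h1, h2⟩
    · exact absurd (by simpa using h2) (Ne.symm h1)
    · subst h1
      simp at h2
  · rintro ⟨h1, h2⟩
    exact Or.inl ⟨h1, Or.inl h2⟩

theorem badChk_spec {n R v x : ℕ} (hn : n ≤ 10) {H : SimpleGraph (Fin n)} (hH : Mat n R H)
    (h : badChk n R v x = true) : ∃ hv : v < n, Bad H ⟨v, hv⟩ := by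
  obtain ⟨h1, h2⟩ := Bool.and_eq_true_iff.1 (show and (Nat.ble (Nat.succ v) n)
    (cliq R (rowx R v x) 3 (rowx R v x)) = true from h)
  have hv : v < n := Nat.le_of_ble_eq_true h1
  obtain ⟨h3, h4⟩ := cliq_spec _ _ h2
  refine ⟨hv, ?_⟩
  have key : ∃ y : Fin n, ∀ a : Fin n, H.Adj ⟨v, hv⟩ a → (a ≠ y ↔ (a : ℕ) ≠ x) := by
    by_cases hx : x < n
    · refine ⟨⟨x, hx⟩, fun a _ => ?_⟩
      rw [not_iff_not]
      exact Fin.ext_iff
    · refine ⟨⟨v, hv⟩, fun a ha => ?_⟩
      have := a.2
      exact ⟨fun _ => by omega, fun _ => ha.ne'⟩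
  obtain ⟨y, hy⟩ := key
  have hbit : ∀ a : Fin n, (H.Adj ⟨v, hv⟩ a ∧ a ≠ y) → (rowx R v x).testBit a = true := by
    rintro a ⟨ha, hay⟩
    rw [rowx_bit]
    have := a.2
    exact ⟨(hy a ha).1 hay, by omega, (hH _ _).1 ha⟩
  refine ⟨y, ?_, ?_⟩
  · intro a ha b hb hab
    rcases h4 a (hbit a ha) b (hbit b hb) with h5 | h5
    · exact absurd (Fin.ext h5) hab
    · exact (hH a b).2 h5
  · refine le_trans ?_ h3
    exact Set.encard_le_encard_of_injOn (f := Fin.val) (fun a ha => hbit a ha)
      Fin.val_injective.injOn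

theorem badSet_spec {n R : ℕ} (hn : n ≤ 10) {H : SimpleGraph (Fin n)} (hH : Mat n R H) :
    ∀ (s w v : ℕ), (badSet n R s w).testBit v = true → ∃ hv : v < n, Bad H ⟨v, hv⟩ := by
  intro s
  induction s with
  | zero =>
    intro w v h
    have h0 : badSet n R 0 w = 0 := rfl
    rw [h0] at h
    simp at h
  | succ s ih =>
    intro w v h
    have h0 : badSet n R (s + 1) w = cond (badChk n R (nib w 0) (nib w 1))
      (Nat.lor (Nat.shiftLeft 1 (nib w 0)) (badSet n R s (Nat.shiftRight w 8)))
      (badSet n R s (Nat.shiftRight w 8)) := rfl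
    rw [h0] at h
    cases hc : badChk n R (nib w 0) (nib w 1) with
    | false =>
      rw [hc, cond_false] at h
      exact ih _ _ h
    | true =>
      rw [hc, cond_true, one_shl] at h
      have h1 : (2 ^ (nib w 0) ||| badSet n R s (Nat.shiftRight w 8)).testBit v = true := h
      rw [Nat.testBit_or, Bool.or_eq_true, Nat.testBit_two_pow] at h1
      rcases h1 with h2 | h2
      · have h3 : nib w 0 = v := by simpa using h2
        rw [← h3]
        exact badChk_spec hn hH hc
      · exact ih _ _ h2

end Pool.Agent.TW4.Sm
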