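import Pool.Agent.TW4.Sm.Ext

/-! Soundness of the loops. -/

namespace Pool.Agent.TW4.Sm

open Pool.Agent.TW4

theorem CT_bit {w j : ℕ} (hw : w < 10) (hj : j < 1024) :
    CT.testBit (1024 * w + j) = j.testBit w := by
  have h : ∀ w : Fin 10, ∀ j : Fin 1024, CT.testBit (1024 * w + j) = (j : ℕ).testBit w := by
    decide +kernel
  exact h ⟨w, hw⟩ ⟨j, hj⟩

theorem PT_bit {d j : ℕ} (hd : d < 6) (hj : j < 1024) :
    PT.testBit (1024 * d + j) = Nat.beq (pop j) d := by
  have h : ∀ d : Fin 6, ∀ j : Fin 1024, PT.testBit (1024 * d + j) = Nat.beq (pop j) d := by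
    decide +kernel
  exact h ⟨d, hd⟩ ⟨j, hj⟩

theorem ctland_bit {X w N : ℕ} (hw : w < 10) (hN : N < 1024) (hX : X.testBit N = true)
    (hNw : N.testBit w = true) :
    (Nat.land X (Nat.shiftRight CT (Nat.mul 1024 w))).testBit N = true := by
  have h : (X &&& (CT >>> (1024 * w))).testBit N = true := by
    rw [Nat.testBit_and, Nat.testBit_shiftRight, CT_bit hw hN, hX, hNw]
    rfl
  exact h

theorem rs_spec {R d N : ℕ} (hN : N < 1024) : ∀ (n X : ℕ), n ≤ 10 → X.testBit N = true →
    (∀ w, w < n → d ≤ deg R w + if N.testBit w = true then 1 else 0) →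
    (rs R d n X).testBit N = true := by
  intro n
  induction n with
  | zero =>
    intro X _ h _
    exact h
  | succ n ih =>
    intro X hn hX hw
    have h0 : rs R d (n + 1) X = rs R d n (cond (Nat.ble d (deg R n)) X
      (cond (Nat.beq (Nat.succ (deg R n)) d)
        (Nat.land X (Nat.shiftRight CT (Nat.mul 1024 n))) 0)) := rfl
    rw [h0]
    refine ih _ (by omega) ?_ (fun w hw' => hw w (by omega))
    have h1 := hw n (by omega)
    cases hb : Nat.ble d (deg R n) with
    | true => exact hX
    | false =>
      have h2 : ¬ d ≤ deg R n := by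
        intro h
        rw [Nat.ble_eq_true_of_le h] at hb
        exact absurd hb (by simp)
      have h3 : N.testBit n = true := by
        by_contra hcon
        simp only [hcon] at h1
        simp at h1
        exact h2 h1
      have h4 : Nat.succ (deg R n) = d := by
        simp only [h3, if_true] at h1
        omega
      rw [cond_false, h4, Nat.beq_refl, cond_true]
      exact ctland_bit (by omega) hN hX h3

theorem vs_spec {R n N : ℕ} (hn : n ≤ 10) (hN : N < 2 ^ n) (hd : pop N < 6)
    (hw : ∀ w, w < n → pop N ≤ deg R w + if N.testBit w = true then 1 else 0) (lo : ℕ)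
    (hlo : lo ≤ pop N) : ∀ c, pop N < lo + c → (vs R n lo c).testBit N = true := by
  have hN' : N < 1024 := lt_of_lt_of_le hN (Nat.pow_le_pow_right (by norm_num) hn)
  intro c
  induction c with
  | zero =>
    intro h
    omega
  | succ c ih =>
    intro h
    have h0 : vs R n lo (c + 1) = (vs R n lo c) ||| (rs R (Nat.add lo c) n
      (Nat.land (Nat.shiftRight PT (Nat.mul 1024 (Nat.add lo c)))
        (Nat.sub (Nat.shiftLeft 1 (Nat.shiftLeft 1 n)) 1))) := rfl
    rw [h0, Nat.testBit_or, Bool.or_eq_true]
    by_cases hc : pop N < lo + c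
    · exact Or.inl (ih hc)
    · right
      have hc' : Nat.add lo c = pop N := by
        show lo + c = pop N
        omega
      rw [hc']
      refine rs_spec hN' _ _ hn ?_ hw
      rw [one_shl, one_shl]
      have h1 : ((PT >>> (1024 * pop N)) &&& (2 ^ 2 ^ n - 1)).testBit N = true := by
        rw [Nat.testBit_and, Nat.testBit_shiftRight, PT_bit hd hN', Nat.beq_refl,
          Nat.testBit_two_pow_sub_one]
        simpa using hN
      exact h1

theorem rb_spec {B N : ℕ} (hN : N < 1024) : ∀ (n X : ℕ), n ≤ 10 → X.testBit N = true →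
    (∀ w, w < n → B.testBit w = true → N.testBit w = true) →
    (rb B n X).testBit N = true := by
  intro n
  induction n with
  | zero =>
    intro X _ h _
    exact h
  | succ n ih =>
    intro X hn hX hw
    have h0 : rb B (n + 1) X = rb B n (cond (tb B n)
      (Nat.land X (Nat.shiftRight CT (Nat.mul 1024 n))) X) := rfl
    rw [h0]
    refine ih _ (by omega) ?_ (fun w hw' => hw w (by omega))
    cases hb : tb B n with
    | false => exact hX
    | true =>
      rw [tb_eq] at hb
      exact ctland_bit (by omega) hN hX (hw n (by omega) hb)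

theorem lp_spec {chk : ℕ → ℕ → Bool} {k : ℕ → Bool} : ∀ (f V D : ℕ),
    lp chk f V D k = true →
      (∀ N, V.testBit N = true → ∃ r, chk N r = true) ∧ ∃ D', k D' = true := by
  intro f
  induction f with
  | zero =>
    intro V D h
    obtain ⟨h1, h2⟩ := Bool.and_eq_true_iff.1 (show and (Nat.beq V 0) (k D) = true from h)
    have h0 : V = 0 := Nat.eq_of_beq_eq_true h1
    subst h0
    exact ⟨by simp, D, h2⟩
  | succ f ih =>
    intro V D h
    have h' : cond (Nat.beq V 0) (k D)
      (and (chk (Nat.log2 V) (Nat.land D 0xffffffffffffffffffffffff))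
        (lp chk f (Nat.xor V (Nat.shiftLeft 1 (Nat.log2 V))) (Nat.shiftRight D 96) k)) = true := h
    cases hV : Nat.beq V 0 with
    | true =>
      have h0 : V = 0 := Nat.eq_of_beq_eq_true hV
      rw [hV, cond_true] at h'
      subst h0
      exact ⟨by simp, D, h'⟩
    | false =>
      rw [hV, cond_false] at h'
      obtain ⟨h1, h2⟩ := Bool.and_eq_true_iff.1 h'
      obtain ⟨h3, h4⟩ := ih _ _ h2
      refine ⟨?_, h4⟩
      intro N hN
      by_cases hNl : N = Nat.log2 V
      · rw [hNl]
        exact ⟨_, h1⟩
      · refine h3 N ?_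
        rw [one_shl]
        exact (tb_clear _ _ _).2 (Or.inl ⟨hNl, hN⟩)

theorem lvl_spec {step : ℕ → ℕ → (ℕ → Bool) → Bool} {w : ℕ} {P : ℕ → Prop}
    (hs : ∀ arr D k, step arr D k = true → P arr ∧ ∃ D', k D' = true) :
    ∀ (c arr D : ℕ), lvl step w c arr D = true → ∀ i, i < c → P (arr >>> (w * i)) := by
  intro c
  induction c with
  | zero =>
    intro arr D _ i hi
    omega
  | succ c ih =>
    intro arr D h i hi
    have h' : step arr D (lvl step w c (Nat.shiftRight arr w)) = true := h
    obtain ⟨h1, D', h2⟩ := hs _ _ _ h'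
    rcases Nat.eq_zero_or_pos i with rfl | hpos
    · simpa using h1
    · have h3 := ih _ _ h2 (i - 1) (by omega)
      have h4 : (Nat.shiftRight arr w) >>> (w * (i - 1)) = arr >>> (w * i) := by
        show (arr >>> w) >>> (w * (i - 1)) = arr >>> (w * i)
        rw [← Nat.shiftRight_add]
        congr 1
        obtain ⟨j, rfl⟩ : ∃ j, i = j + 1 := ⟨i - 1, by omega⟩
        simp only [Nat.add_sub_cancel]
        ring
      rw [h4] at h3
      exact h3

end Pool.Agent.TW4.Sm
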