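import Pool.Agent.TW4.Sm.Base

/-! Soundness of the minor certificates. -/

namespace Pool.Agent.TW4.Sm

open Pool.Agent.TW4

theorem xor_bit (A h w : ℕ) (hA : A.testBit h = true) :
    (Nat.xor A (Nat.shiftLeft 1 h)).testBit w = true ↔ w ≠ h ∧ A.testBit w = true := by
  rw [one_shl]
  show (A ^^^ 2 ^ h).testBit w = true ↔ _
  rw [tb_clear]
  constructor
  · rintro (h' | ⟨rfl, h'⟩)
    · exact h'
    · rw [hA] at h'
      exact absurd h' (by simp)
  · exact fun h' => Or.inl h'

theorem cR_bit {R u v a b : ℕ} (hv : v < 16) (hb : b < 16)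
    (h : (cR R u v).testBit (16 * a + b) = true) :
    R.testBit (16 * a + b) = true ∨ (a = v ∧ R.testBit (16 * u + b) = true) ∨
      (b = v ∧ R.testBit (16 * a + u) = true) := by
  have h1 : cR R u v = (R ||| (((R >>> (16 * u)) &&& 65535) <<< (16 * v))) |||
    (((R &&& (m16 <<< u)) <<< v) >>> u) := rfl
  rw [h1, Nat.testBit_or, Nat.testBit_or, Bool.or_eq_true, Bool.or_eq_true] at h
  rcases h with (h | h) | h
  · exact Or.inl h
  · rw [Nat.testBit_shiftLeft, Bool.and_eq_true, mask16, Nat.testBit_shiftRight] at h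
    obtain ⟨h2, h3, h4⟩ := h
    have h5 : 16 * a + b ≥ 16 * v := by simpa using h2
    have h6 : a = v := by omega
    subst h6
    rw [Nat.add_sub_cancel_left] at h4
    exact Or.inr (Or.inl ⟨rfl, h4⟩)
  · rw [Nat.testBit_shiftRight, Nat.testBit_shiftLeft, Bool.and_eq_true, Nat.testBit_and,
      Bool.and_eq_true, Nat.testBit_shiftLeft, Bool.and_eq_true, m16_bit] at h
    obtain ⟨h2, h3, h4, h5, h6⟩ := h
    have h7 : u + (16 * a + b) ≥ v := by simpa using h2
    have h8 : u + (16 * a + b) - v ≥ u := by simpa using h4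
    have h9 : b = v := by omega
    subst h9
    have h10 : u + (16 * a + b) - b = 16 * a + u := by omega
    rw [h10] at h3
    exact Or.inr (Or.inr ⟨rfl, h3⟩)

/-- the state after some contractions -/
def Stage {m : ℕ} (G : SimpleGraph (Fin m)) (R A : ℕ) : Prop :=
  ∃ g : Fin m → ℕ, (∀ a, A.testBit a = true → a < 10 ∧ (G.induce {x | g x = a}).Connected) ∧
    ∀ a b, A.testBit a = true → A.testBit b = true → a ≠ b → R.testBit (16 * a + b) = true →
      ∃ x y, g x = a ∧ g y = b ∧ G.Adj x y

theorem stage_init {m R : ℕ} {G : SimpleGraph (Fin m)} (hm : m ≤ 10) (hG : Mat m R G) :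
    Stage G R (2 ^ m - 1) := by
  have hlt : ∀ a, (2 ^ m - 1).testBit a = true → a < m := by
    intro a ha
    rw [Nat.testBit_two_pow_sub_one] at ha
    simpa using ha
  refine ⟨fun x => x, ?_, ?_⟩
  · intro a ha
    have ha' := hlt a ha
    refine ⟨by omega, ?_⟩
    have : Nonempty {x : Fin m | (x : ℕ) = a} := ⟨⟨⟨a, ha'⟩, rfl⟩⟩
    refine SimpleGraph.Connected.mk ?_
    rintro ⟨x, hx⟩ ⟨y, hy⟩
    have : x = y := Fin.ext (Eq.trans hx (Eq.symm hy))
    subst this
    exact SimpleGraph.Reachable.refl _
  · intro a b ha hb _ hR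
    exact ⟨⟨a, hlt a ha⟩, ⟨b, hlt b hb⟩, rfl, rfl, (hG _ _).2 hR⟩

theorem stage_step {m R A u v : ℕ} {G : SimpleGraph (Fin m)} (h : Stage G R A)
    (hu : A.testBit u = true) (hv : A.testBit v = true) (huv : u ≠ v)
    (hR : R.testBit (16 * u + v) = true) :
    Stage G (cR R u v) (Nat.xor A (Nat.shiftLeft 1 u)) := by
  classical
  obtain ⟨g, h1, h2⟩ := h
  refine ⟨fun x => if g x = u then v else g x, ?_, ?_⟩
  · intro a ha
    rw [xor_bit _ _ _ hu] at ha
    refine ⟨(h1 a ha.2).1, ?_⟩
    by_cases hav : a = v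
    · subst hav
      obtain ⟨x, y, hx, hy, hxy⟩ := h2 u a hu hv huv hR
      have hunion : {x : Fin m | (if g x = u then a else g x) = a} =
          {x | g x = u} ∪ {x | g x = a} := by
        ext z
        simp only [Set.mem_ofPred_eq, Set.mem_union]
        by_cases hz : g z = u
        · simp [hz]
        · simp [hz]
      have := SimpleGraph.connected_induce_union (G := G) (s := {x | g x = u})
        (t := {x | g x = a}) (v := x) (w := y) (h1 u hu).2.preconnected (h1 a hv).2.preconnected
        hx hy hxy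
      rw [← hunion] at this
      exact this
    · have : {x : Fin m | (if g x = u then v else g x) = a} = {x | g x = a} := by
        ext z
        simp only [Set.mem_ofPred_eq]
        by_cases hz : g z = u
        · simp only [hz, if_true]
          exact ⟨fun h => absurd h.symm hav, fun h => absurd h.symm ha.1⟩
        · simp [hz]
      rw [this]
      exact (h1 a ha.2).2
  · intro a b ha hb hab hR'
    rw [xor_bit _ _ _ hu] at ha hb
    have hb16 := (h1 b hb.2).1
    have keep : ∀ x c, g x = c → c ≠ u → (if g x = u then v else g x) = c := by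
      intro x c hx hc
      rw [if_neg (by rw [hx]; exact hc)]
      exact hx
    rcases cR_bit (by have := (h1 v hv).1; omega) (by omega) hR' with h' | ⟨rfl, h'⟩ | ⟨rfl, h'⟩
    · obtain ⟨x, y, hx, hy, hxy⟩ := h2 a b ha.2 hb.2 hab h'
      exact ⟨x, y, keep x a hx ha.1, keep y b hy hb.1, hxy⟩
    · obtain ⟨x, y, hx, hy, hxy⟩ := h2 u b hu hb.2 (Ne.symm hb.1) h'
      exact ⟨x, y, by simp [hx], keep y b hy hb.1, hxy⟩
    · obtain ⟨x, y, hx, hy, hxy⟩ := h2 a u ha.2 hu ha.1 h'
      exact ⟨x, y, keep x a hx ha.1, by simp [hy], hxy⟩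

theorem ctr_spec {m : ℕ} {G : SimpleGraph (Fin m)} (k : ℕ → ℕ → ℕ → Bool) :
    ∀ (s w R A : ℕ), Stage G R A → ctr k s w R A = true →
      ∃ w' R' A', Stage G R' A' ∧ k w' R' A' = true := by
  intro s
  induction s with
  | zero =>
    intro w R A hS h
    exact ⟨w, R, A, hS, h⟩
  | succ s ih =>
    intro w R A hS h
    have h' : and (and (tb R (Nat.add (Nat.mul 16 (nib w 0)) (nib w 1)))
        (not (Nat.beq (nib w 0) (nib w 1))))
        (and (and (tb A (nib w 0)) (tb A (nib w 1)))
          (ctr k s (Nat.shiftRight w 8) (cR R (nib w 0) (nib w 1))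
            (Nat.xor A (Nat.shiftLeft 1 (nib w 0))))) = true := h
    obtain ⟨h1, h2⟩ := Bool.and_eq_true_iff.1 h'
    obtain ⟨h3, h4⟩ := Bool.and_eq_true_iff.1 h1
    obtain ⟨h5, h6⟩ := Bool.and_eq_true_iff.1 h2
    obtain ⟨h7, h8⟩ := Bool.and_eq_true_iff.1 h5
    rw [tb_eq] at h3 h7 h8
    have hne : nib w 0 ≠ nib w 1 := by
      intro he
      rw [he] at h4
      simp at h4
    exact ih _ _ _ (stage_step hS h7 h8 hne h3) h6

/-- the value of `pop` decides injectivity -/
theorem pop_inj {k p : ℕ} (h10 : imgP p k < 1024) (h : pop (imgP p k) = k) :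
    ∀ i j, i < k → j < k → nib p i = nib p j → i = j := by
  classical
  rw [pop_spec h10] at h
  have himg : ((Finset.range 10).filter fun i => (imgP p k).testBit i = true) =
      (Finset.range k).image (nib p) := by
    ext a
    rw [Finset.mem_filter, Finset.mem_image, imgP_bit]
    constructor
    · rintro ⟨_, i, hi, hia⟩
      exact ⟨i, Finset.mem_range.2 hi, hia⟩
    · rintro ⟨i, hi, hia⟩
      refine ⟨?_, i, Finset.mem_range.1 hi, hia⟩
      by_contra hcon
      rw [Finset.mem_range, not_lt] at hcon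
      have : (imgP p k).testBit a = true := (imgP_bit p k _).2 ⟨i, Finset.mem_range.1 hi, hia⟩
      rw [Nat.testBit_lt_two_pow (lt_of_lt_of_le h10
        (show 2 ^ 10 ≤ 2 ^ a from Nat.pow_le_pow_right (by norm_num) hcon))] at this
      exact absurd this (by simp)
  rw [himg] at h
  have hinj : Set.InjOn (nib p) (Finset.range k : Set ℕ) := by
    apply Finset.card_image_iff.1
    rw [h, Finset.card_range]
  intro i j hi hj hij
  exact hinj (by simpa using hi) (by simpa using hj) hij

theorem emb_spec {m k M p R A : ℕ} {G : SimpleGraph (Fin m)} {H : SimpleGraph (Fin k)}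
    (hk : k ≤ 15) (hM : Rng k M) (hH : Mat k M H) (hS : Stage G R A) (h : emb k M p R A = true) :
    IsMinor H G := by
  classical
  obtain ⟨g, hg1, hg2⟩ := hS
  obtain ⟨h1, h2⟩ := Bool.and_eq_true_iff.1 (show and (and (Nat.beq (Nat.land (rowP (colP M p k) p k) R) (rowP (colP M p k) p k))
    (Nat.beq (Nat.land (imgP p k) A) (imgP p k))) (Nat.beq (pop (imgP p k)) k) = true from h)
  obtain ⟨h3, h4⟩ := Bool.and_eq_true_iff.1 h1
  have e1 := Nat.eq_of_beq_eq_true h3
  have e2 := Nat.eq_of_beq_eq_true h4
  have e3 := Nat.eq_of_beq_eq_true h2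
  have hA' : ∀ a, (imgP p k).testBit a = true → A.testBit a = true := by
    intro a this
    rw [← e2] at this
    have h' : ((imgP p k) &&& A).testBit a = true := this
    rw [Nat.testBit_and, Bool.and_eq_true] at h'
    exact h'.2
  have hA : ∀ i, i < k → A.testBit (nib p i) = true := fun i hi =>
    hA' _ ((imgP_bit p k _).2 ⟨i, hi, rfl⟩)
  have h10 : imgP p k < 2 ^ 10 := by
    apply Nat.lt_pow_two_of_testBit
    intro i hi
    by_contra hcon
    have h' : (imgP p k).testBit i = true := by simpa using hcon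
    have := (hg1 i (hA' i h')).1
    omega
  have hinj := pop_inj h10 e3
  have hR : ∀ i j, i < k → j < k → M.testBit (16 * i + j) = true →
      R.testBit (16 * nib p i + nib p j) = true := by
    intro i j hi hj hij
    have h5 := (perm_bit hk hM hinj rfl hi hj).2 hij
    rw [← e1] at h5
    have h' : ((rowP (colP M p k) p k) &&& R).testBit (16 * nib p i + nib p j) = true := h5
    rw [Nat.testBit_and, Bool.and_eq_true] at h'
    exact h'.2
  let f : Fin m → Option (Fin k) := fun x =>
    if h : ∃ i : Fin k, nib p i = g x then some h.choose else none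
  have hf : ∀ x (i : Fin k), f x = some i ↔ g x = nib p i := by
    intro x i
    by_cases hx : ∃ i : Fin k, nib p i = g x
    · have hfx : f x = some hx.choose := dif_pos hx
      have hc := hx.choose_spec
      rw [hfx]
      constructor
      · intro h'
        rw [← Option.some.inj h']
        exact hc.symm
      · intro h'
        have := hinj _ _ hx.choose.2 i.2 (hc.trans h')
        rw [Fin.ext this]
    · have hfx : f x = none := dif_neg hx
      rw [hfx]
      constructor
      · intro h'
        exact absurd h' (by simp)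
      · intro h'
        exact absurd ⟨i, h'.symm⟩ hx
  refine ⟨f, ?_, ?_⟩
  · intro i
    have : {x | f x = some i} = {x | g x = nib p i} := by
      ext x
      exact hf x i
    rw [this]
    exact (hg1 _ (hA i i.2)).2
  · intro i j hij
    have hne : nib p i ≠ nib p j := by
      intro h'
      exact hij.ne (Fin.ext (hinj i j i.2 j.2 h'))
    obtain ⟨x, y, hx, hy, hxy⟩ := hg2 _ _ (hA i i.2) (hA j j.2) hne (hR i j i.2 j.2
      ((hH i j).1 hij))
    exact ⟨x, y, (hf x i).2 hx, (hf y j).2 hy, hxy⟩

end Pool.Agent.TW4.Sm
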